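import Pool.Agent.helper4.AL.TopM
import Pool.Agent.helper4.AL.TopZ

/-!
# Three dichotomies for `a p - b q = c`: the alternative, the duality, the zero-one law

`c` is true for `(a, b)` (`TrueCase a b c`) if `a, b, c` satisfy the conditions of Q1 (`Poss a b c`) and `a p - b q = c` has infinitely
many solutions in primes.  A positive rational `a / b` is ample if for some `δ > 0` and arbitrarily large `X` at least `δ X` of the
`|c| ≤ X` are true for `(a, b)`; so it is not ample if and only if the true `c` have density `0`.  The forms `s_i n + h_i`, `i ≤ k`, are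
`θ`-rich (`Rich`) if more than `θ k` of them are prime simultaneously for infinitely many `n`.  Let `e = 1/500000`.

THEOREM. (I) ALTERNATIVE. For every `m ≥ 1` at least one of (A), (B) holds.
(A) All multiples `c ≠ 0` of `2 m` outside a set with at most `N ^ (1 - 1 / K)` elements in every interval of `N` integers are true for
`(1, 1)`, that is `p - q = c` infinitely often; and if `X`, `Y` are sets of `K` integers with `y - x ≠ 0` divisible by `2 m` for all
`x ∈ X`, `y ∈ Y`, then some difference `y - x` is true for `(1, 1)`.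
(B) For ALL `(a, b, c')` which satisfy the conditions of Q1, every interval of length `C (a + b)` contains a `c ≡ c'` modulo `m` which is
true for `(a, b)` (one constant `C = C(m)`), and every long interval contains a positive proportion of such `c`, with an explicit
constant.
(II) DUALITY. For every `θ > 0` at least one holds: for every `k` there are `C, δ > 0` such that for all finite sets `F_1, ..., F_k` of at
least `L` integers all but `C |F_1| ... |F_k| L ^ (-δ)` of the `h` with `n + h_1, ..., n + h_k` admissible are such that these forms are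
`θ`-rich; or for all `μ_1, ..., μ_m ≥ 1` there is `D` such that every cube of side `D` in `ℤ ^ m` contains an `h` such that
`μ_1 n + h_1, ..., μ_m n + h_m` are `(1/4 + e)/θ`-rich.  (`θ = 1/2`: more than half of the `n + h_i` for almost all admissible
`(h_1, ..., h_k)`, or both `μ_1 n + h_1` and `μ_2 n + h_2` for any coefficients and relatively dense `(h_1, h_2)`.)  The same for all
slopes `s_1, ..., s_k` in place of `1, ..., 1`, with `C` and `δ` depending only on `k` and `m`.
(III) RATIOS. Every ratio `a₀ / b₀` is solved (all `c` which satisfy the conditions of Q1 are true for `(a₀, b₀)` with at most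
`C(a₀, b₀) N ^ (1 - 1 / K)` exceptions in every interval of `N` integers), or every geometric progression of three ratios with quotient
`a₀ / b₀` contains one with a positive proportion of true `c`, at every scale `X ≥ C (a + b)`.  ZERO-ONE LAW: either every positive
rational is a product of three ample ones, or there is a subgroup `H` of index `ω = 2` or `3` of the group of the positive rationals such
that: no `a / b` outside `H` is ample (almost no `c` are true for `(a, b)`); all `a / b` in `H` are ample and solved; and for every `k`,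
all slopes `s_1, ..., s_k` in one coset of `H` and all sets `F_1, ..., F_k` of at least `L` integers, for all but
`C |F_1| ... |F_k| L ^ (-δ)` of the `h ∈ F_1 × ... × F_k` for which the forms `s_i n + h_i` are admissible, they are `ω (1/4 + e)`-rich
(`ω = 2`: more than half of them are prime; `ω = 3`: more than three quarters, all of them if `k ≤ 4`).

PROOF. Rows and complete proofs in `Pool/Agent/helper7/AL/Spec.lean`, `SpecM.lean`, `SpecG.lean`, `SpecL.lean`, `SpecD.lean`,
`SpecE.lean`, `Pool/Agent/helper10/QT/SpecY.lean`.  The input are sieve weights of Maynard's type for `4 k` linear forms in four clusters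
of `k` forms (and for `k` clusters), a majorant for pairs of primes in the same cluster which is improved by switching (Chen), and the
theorem of Bombieri and Vinogradov (level of distribution `1/2`), all proved in the files imported: in `k` clusters more than
`(1/4 + e) k` contain primes simultaneously.  (I): if (A) fails there are two sets `X`, `Y` of `k` integers without a good difference, in
fixed residue classes; the four clusters are `b n + h + X`, `b n + h + Y`, `a n + h' + X`, `a n + h' + Y`: one pair of primes must come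
from different sides.  (II): if all tuples of a large box are not `θ`-rich, then `m` copies `n ↦ μ_p n + h_p` of it are `m k` clusters,
and at most `θ k` of the forms in every copy are prime together; so more than `(1/4 + e) m/θ` copies contain a prime.  (III): among
any four positive rationals two have an ample quotient; a symmetric set `S ∋ 1` in an abelian group with this property is a subgroup of
index 2 or 3, or `S S S` is the whole group; in the first case `ω` copies of a box of bad tuples, with the `μ_p` in the `ω` different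
cosets of `H`, give a contradiction.
-/

set_option autoImplicit false

namespace Pool.Agent.helper4.Reserve.AltRatios

open Finset

/-- The conditions of Q1: `a, b ≥ 1`, `c ≠ 0`, pairwise relatively prime, not all odd. -/
def Poss (a b : ℕ) (c : ℤ) : Prop :=
  0 < a ∧ 0 < b ∧ c ≠ 0 ∧ Nat.Coprime a b ∧ IsCoprime (a : ℤ) c ∧ IsCoprime (b : ℤ) c ∧
    ¬ (Odd a ∧ Odd b ∧ Odd c)

/-- `c` is true for `(a, b)`: the conditions of Q1 hold and `a p - b q = c` has infinitely many solutions in primes. -/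
def TrueCase (a b : ℕ) (c : ℤ) : Prop :=
  Poss a b c ∧ {pq : ℕ × ℕ | pq.1.Prime ∧ pq.2.Prime ∧ (a : ℤ) * pq.1 - b * pq.2 = c}.Infinite

/-- `a` divided by the greatest common divisor of `a` and `b`. -/
def lo (a b : ℕ) : ℕ := a / Nat.gcd a b

/-- The pair `(a, b)` is solved up to a power saving: if `X`, `Y` are sets of `K` integers such that all `a x - b y` satisfy the
conditions of Q1, some `a x - b y` is true for `(a, b)`; and every interval of `N` integers contains at most `C N ^ (1 - 1 / K)`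
integers `c` which satisfy the conditions of Q1 and are not true. -/
def Solved (K a b : ℕ) : Prop :=
  (∀ X Y : Finset ℤ, #X = K → #Y = K → (∀ x ∈ X, ∀ y ∈ Y, Poss a b (a * x - b * y)) →
      ∃ x ∈ X, ∃ y ∈ Y, TrueCase a b (a * x - b * y)) ∧
    ∃ C : ℝ, ∀ (u : ℤ) (N : ℕ),
      ({c : ℤ | u < c ∧ c ≤ u + N ∧ Poss a b c ∧ ¬ TrueCase a b c}.ncard : ℝ) ≤
        C * (N : ℝ) ^ (1 - 1 / (K : ℝ))

/-- The positive rational `r = a / b` (in lowest terms) is ample: for some `δ > 0` and arbitrarily large `X` at least `δ X` of the `c`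
with `|c| ≤ X` are true for `(a, b)`. -/
def Ample (r : ℚ) : Prop :=
  ∃ δ : ℝ, 0 < δ ∧ ∀ X₀ : ℕ, ∃ X : ℕ, X₀ ≤ X ∧
    δ * X ≤ ({c : ℤ | |c| ≤ X ∧ TrueCase r.num.natAbs r.den c}.ncard : ℝ)

/-- The forms `s_i n + h_i` are admissible: no prime divides the product of their values at all `n`. -/
def Adm {k : ℕ} (s : Fin k → ℕ) (h : Fin k → ℤ) : Prop :=
  ∀ p : ℕ, p.Prime → ∃ n : ℕ, ∀ i, ¬ (p : ℤ) ∣ (s i : ℤ) * n + h i

/-- The forms `s_i n + h_i` are `θ`-rich: for infinitely many `n` more than `θ k` of the `k` numbers `s_i n + h_i` are prime. -/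
def Rich (θ : ℝ) {k : ℕ} (s : Fin k → ℕ) (h : Fin k → ℤ) : Prop :=
  ∀ N : ℕ, ∃ n ≥ N, θ * k < #{i : Fin k | ((s i : ℤ) * n + h i).toNat.Prime}

/-- For all finite sets `F_i` of at least `L` integers all but `C |F_1| ... |F_k| L ^ (-δ)` of the `h` in their product for which the
forms `s_i n + h_i` are admissible are such that these forms are `θ`-rich. -/
def AlmostAll (θ : ℝ) {k : ℕ} (s : Fin k → ℕ) (C δ : ℝ) : Prop :=
  ∀ (F : Fin k → Finset ℤ) (L : ℕ), 1 ≤ L → (∀ i, L ≤ #(F i)) →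
    ({h | h ∈ Fintype.piFinset F ∧ Adm s h ∧ ¬ Rich θ s h}.ncard : ℝ) ≤ C * (∏ i, (#(F i) : ℝ)) * (L : ℝ) ^ (-δ)

theorem hT : Pool.Agent.helper85.FC.TrueCase = TrueCase := by
  funext a b c
  unfold Pool.Agent.helper85.FC.TrueCase TrueCase Poss
  simp only [and_assoc]

theorem hP : Pool.Agent.AL.Poss = Poss := rfl

theorem hS : Pool.Agent.AL.Solved = Solved := by
  funext K a b
  unfold Pool.Agent.AL.Solved Solved
  rw [hT, hP]

theorem hA : Pool.Agent.AL.Ample = Ample := by
  funext r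
  unfold Pool.Agent.AL.Ample Ample
  rw [hT]

theorem hcard {α : Type} (s : Finset α) (P Q : α → Prop) (inst : DecidablePred Q) (h : ∀ x, P x ↔ Q x) :
    (({x | x ∈ s ∧ P x}.ncard : ℕ) : ℝ) = ((#(@Finset.filter α Q inst s) : ℕ) : ℝ) := by
  have h1 : {x | x ∈ s ∧ P x} = ((@Finset.filter α Q inst s : Finset α) : Set α) := by
    ext x
    simp [h]
  rw [h1, Set.ncard_coe_finset]

theorem aa (k K : ℕ) (hk : 1 ≤ k) (hK : 1 ≤ K) :
    ∃ C δ : ℝ, 0 < C ∧ 0 < δ ∧ ∀ (θ : ℝ) (s : Fin k → ℕ), Pool.Agent.LD.BoxT θ k s K → AlmostAll θ s C δ := by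
  obtain ⟨C, δ, hC, hδ, -, H⟩ := Pool.Agent.LD.LQT_all k K hk hK
  refine ⟨C, δ, hC, hδ, fun θ s hB F L hL hF => ?_⟩
  exact le_trans (le_of_eq (hcard _ _ _ _ fun h => Iff.rfl)) (H θ s hB F L hL hF)

theorem mm {θ : ℝ} (hθ : 0 < θ) {m : ℕ} (s : Fin m → ℕ) (h : Fin m → ℤ) (I : Finset (Fin m))
    (hI : (m : ℝ) * (1 / 4 + 1 / 500000) < θ * #I)
    (H : ∀ N : ℕ, ∃ n ≥ N, ∀ p ∈ I, ((s p : ℤ) * n + h p).toNat.Prime) :
    Rich ((1 / 4 + 1 / 500000) / θ) s h := by
  intro N
  obtain ⟨n, hn, hp⟩ := H N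
  refine ⟨n, hn, ?_⟩
  have h2 : (#I : ℝ) ≤ #{p : Fin m | ((s p : ℤ) * n + h p).toNat.Prime} := by
    refine Nat.cast_le.2 (card_le_card fun p hp' => ?_)
    rw [mem_filter]
    exact ⟨mem_univ p, hp p hp'⟩
  rw [div_mul_eq_mul_div, div_lt_iff₀ hθ]
  nlinarith

/-- **The alternative, the duality and the zero-one law.** -/
theorem result :
    -- (I) the alternative, every modulus `m`
    (∀ m : ℕ, 1 ≤ m →
      -- (A) two clusters, and all multiples `c` of `2 m` with a power saving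
      (∃ K : ℕ, 1 ≤ K ∧
        (∀ X Y : Finset ℤ, #X = K → #Y = K → (∀ x ∈ X, ∀ y ∈ Y, x ≠ y ∧ ((2 * m : ℕ) : ℤ) ∣ y - x) →
          ∃ x ∈ X, ∃ y ∈ Y, TrueCase 1 1 (y - x)) ∧
        ∀ (u : ℤ) (N : ℕ),
          ({c : ℤ | u < c ∧ c ≤ u + N ∧ c ≠ 0 ∧ ((2 * m : ℕ) : ℤ) ∣ c ∧ ¬ TrueCase 1 1 c}.ncard : ℝ) ≤
            (N : ℝ) ^ (1 - 1 / (K : ℝ))) ∨
      -- (B) every pair of coprime coefficients: gaps, and a positive proportion
      ((∃ C : ℕ, ∀ (a b : ℕ) (c' : ℤ), Poss a b c' → ∀ u : ℤ,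
          ∃ c : ℤ, u < c ∧ c ≤ u + C * (a + b) ∧ (m : ℤ) ∣ c - c' ∧ TrueCase a b c) ∧
        ∀ (a b : ℕ) (c' : ℤ), Poss a b c' → ∀ ε : ℝ, 0 < ε → ∃ M₀ : ℕ, ∀ M : ℕ, M₀ ≤ M → ∀ u : ℤ,
          (1 / (m : ℝ) * (if 2 ∣ m then 1 else 1 / 2) * (if 3 ∣ m then 1 / 4 else 1 / 6) - ε) *
              (∏ l ∈ (a * b).primeFactors with 5 ≤ l ∧ ¬ l ∣ m, (1 - 2 / (l : ℝ))) * M ≤
            {c : ℤ | u < c ∧ c ≤ u + M ∧ (m : ℤ) ∣ c - c' ∧ TrueCase a b c}.ncard)) ∧
    -- (II) the duality
    (∀ θ : ℝ, 0 < θ →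
      (∀ k : ℕ, 1 ≤ k → ∃ C δ : ℝ, 0 < C ∧ 0 < δ ∧ AlmostAll θ (fun _ : Fin k => 1) C δ) ∨
      ∀ m : ℕ, 1 ≤ m → ∀ μ : Fin m → ℕ, (∀ p, 0 < μ p) → ∃ D : ℕ, ∀ w : Fin m → ℤ, ∃ h : Fin m → ℤ,
        (∀ p, w p < h p ∧ h p ≤ w p + D) ∧ Rich ((1 / 4 + 1 / 500000) / θ) μ h) ∧
    -- the duality for all slopes
    (∀ k m : ℕ, 1 ≤ k → 1 ≤ m → ∃ C δ : ℝ, 0 < C ∧ 0 < δ ∧ ∀ (θ : ℝ) (s : Fin k → ℕ), 0 < θ → (∀ i, 0 < s i) →
      AlmostAll θ s C δ ∨
      ∀ μ : Fin m → ℕ, (∀ p, 0 < μ p) → ∃ D : ℕ, ∀ w : Fin m → ℤ, ∃ (h x : Fin m → ℤ) (j : Fin m → Fin k),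
        (∀ p, w p < h p ∧ h p ≤ w p + D ∧ |x p| ≤ D) ∧
          Rich ((1 / 4 + 1 / 500000) / θ) (fun p => s (j p) * μ p) (fun p => s (j p) * h p + x p)) ∧
    -- (III) ratios
    ∃ K : ℕ, 1 ≤ K ∧
      -- every ratio `a₀ : b₀`: the pair `(a₀, b₀)` is solved up to a power saving, or
      (∀ a₀ b₀ : ℕ, 0 < a₀ → 0 < b₀ → Nat.Coprime a₀ b₀ → Solved K a₀ b₀ ∨
        -- every geometric progression `(a : b)`, `(a a₀ : b b₀)`, `(a a₀² : b b₀²)`
        (∃ C : ℕ, ∀ a b : ℕ, 0 < a → 0 < b → Nat.Coprime a b → ∀ X : ℕ, C * (a + b) ≤ X →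
          ∃ j ≤ 2, X ≤ C * (a + b) * {c : ℤ | |c| ≤ X ∧
            TrueCase (lo (a * a₀ ^ j) (b * b₀ ^ j)) (lo (b * b₀ ^ j) (a * a₀ ^ j)) c}.ncard)) ∧
      -- the zero-one law: every positive rational is a product of three ample ones, or
      ((∀ x ∈ Units.posSubgroup ℚ, ∃ y : Fin 3 → ℚˣ,
          (∀ i, y i ∈ Units.posSubgroup ℚ ∧ Ample (y i)) ∧ x = ∏ i, y i) ∨
        -- there is a subgroup `H` of index 2 or 3 of the positive rationals
        ∃ (H : Subgroup ℚˣ) (ω : ℕ), H ≤ Units.posSubgroup ℚ ∧ (ω = 2 ∨ ω = 3) ∧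
          H.relIndex (Units.posSubgroup ℚ) = ω ∧
          (∀ x ∈ Units.posSubgroup ℚ,
            (x ∈ H → Solved K (x : ℚ).num.natAbs (x : ℚ).den) ∧ (Ample x ↔ x ∈ H)) ∧
          ∀ k : ℕ, 1 ≤ k → ∃ C δ : ℝ, 0 < C ∧ 0 < δ ∧ ∀ s : Fin k → ℕ, (∀ i, 0 < s i) →
            (∀ i j, ∃ x ∈ H, (x : ℚ) = (s i : ℚ) / s j) → AlmostAll (ω * (1 / 4 + 1 / 500000)) s C δ) := by
  refine ⟨?_, ?_, ?_, ?_⟩
  · have h := Pool.Agent.AL.alternativeM
    unfold Pool.Agent.AL.AlternativeM at h
    rw [hT, hP] at h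
    exact h
  · intro θ hθ
    rcases Pool.Agent.LD.DUE_all θ with h | h
    · left
      intro k hk
      obtain ⟨K, hK⟩ := h k hk
      have hK' : Pool.Agent.LD.BoxT θ k (fun _ => 1) (K + 1) := fun H hH h1 => hK H (fun i => by
        have := hH i
        omega) h1
      obtain ⟨C, δ, hC, hδ, H⟩ := aa k (K + 1) hk (by omega)
      exact ⟨C, δ, hC, hδ, H θ _ hK'⟩
    · right
      intro m hm μ hμ
      obtain ⟨D, H⟩ := h m μ hm hμ
      refine ⟨D, fun w => ?_⟩
      obtain ⟨x, I, hx, hI, H'⟩ := H w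
      exact ⟨x, hx, mm hθ _ _ I hI H'⟩
  · intro k m hk hm
    obtain ⟨K, hK, H⟩ := Pool.Agent.LD.LEE_all k m hk hm
    obtain ⟨C, δ, hC, hδ, H'⟩ := aa k K hk hK
    refine ⟨C, δ, hC, hδ, fun θ s hθ hs => ?_⟩
    rcases H θ s hs with h | h
    · exact Or.inl (H' θ s h)
    · right
      intro μ hμ
      obtain ⟨D, h1⟩ := h μ hμ
      refine ⟨D, fun w => ?_⟩
      obtain ⟨x, y, I, j, hx, hI, h2⟩ := h1 w
      exact ⟨x, y, j, hx, mm hθ _ _ I hI h2⟩
  · obtain ⟨K, hK, h1, h2⟩ := Pool.Agent.AL.TOPZ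
    refine ⟨K, hK, ?_, ?_⟩
    · unfold Pool.Agent.AL.Local at h1
      rw [hS, hT] at h1
      exact h1
    · rcases h2 with h3 | ⟨H, hH, hi, h3⟩
      · rw [hA] at h3
        exact Or.inl h3
      · obtain ⟨ω, hω, hi'⟩ : ∃ ω : ℕ, (ω = 2 ∨ ω = 3) ∧ H.relIndex (Units.posSubgroup ℚ) = ω := by
          rcases hi with h | h
          · exact ⟨2, Or.inl rfl, h⟩
          · exact ⟨3, Or.inr rfl, h⟩
        refine Or.inr ⟨H, ω, hH, hω, hi', ?_, fun k hk => ?_⟩
        · rw [← hS, ← hA]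
          exact h3
        · obtain ⟨C, δ, hC, hδ, h4⟩ :=
            Pool.Agent.AL.TOPZ_clus H ω hH hω hi' (fun x hx h => (h3 x hx).2.1 h) k hk
          refine ⟨C, δ, hC, hδ, fun s hs hsH F L hL hF => ?_⟩
          exact le_trans (le_of_eq (hcard _ _ _ _ fun h => Iff.rfl)) (h4 s hs hsH F L hL hF)

end Pool.Agent.helper4.Reserve.AltRatios
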