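import Pool.Agent.helper4.QX.AllE

set_option autoImplicit false

/-!
# MP_07c750_an: quantum unique ergodicity for covers, with a power saving in the degree

There is a constant `c > 0` such that every closed hyperbolic surface `M = Γ \ ℍ` of genus `g ≥ 2` (i.e. `Γ` is
isomorphic to the group of the closed orientable surface of genus `g`) has connected covers `M_n` of every
degree `n` such that, for large `n`, ALL new eigenfunctions of `M_n` with eigenvalues in `[0, n^c]` are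
equidistributed over `M`, with the rate `n^(-c)` simultaneously for all functions with Lipschitz constant `1`.
In particular they are asymptotically equidistributed for every continuous test function.
-/

open scoped MatrixGroups UpperHalfPlane
open UpperHalfPlane Filter

namespace Pool.Agent.Results.MP_07c750_an.CoversPowerRate

open Pool.Agent.QU Pool.Agent.RP

theorem result : ∃ c : ℝ, 0 < c ∧ ∀ Γ : Subgroup SL(2, ℝ), SurfaceGroup Γ →
    ∀ g : ℕ, 2 ≤ g → Nonempty (Γ ≃* SurfGrp g) →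
      ∃ σ : ∀ n : ℕ, Γ →* Equiv.Perm (Fin n), (∀ n i j, ∃ γ, σ n γ i = j) ∧
        (∃ n₀ : ℕ, ∀ n : ℕ, n₀ ≤ n → ∀ (μ : ℝ) (φ : ℍ → Fin n → ℂ), 0 ≤ μ → μ ≤ (n : ℝ) ^ c →
          IsNewEigenfunction (σ n) μ φ →
          ∀ h : ℍ → ℝ, (∀ (γ : Γ) (z : ℍ), h (γ • z) = h z) → (∀ z w : ℍ, |h z - h w| ≤ dist z w) →
            Equidist Γ h (fun z => ∑ i, ‖φ z i‖ ^ 2) ((n : ℝ) ^ (-c))) ∧
        ∀ h : ℍ → ℝ, IsTest Γ h → ∀ ε : ℝ, 0 < ε → ∀ᶠ n in atTop,
          ∀ (μ : ℝ) (φ : ℍ → Fin n → ℂ), 0 ≤ μ → μ ≤ (n : ℝ) ^ c →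
            IsNewEigenfunction (σ n) μ φ → Equidist Γ h (fun z => ∑ i, ‖φ z i‖ ^ 2) ε := by
  obtain ⟨c, hc, hT⟩ := Pool.Agent.QX.A_EFV
  refine ⟨c, hc, fun Γ hΓ g hg he => ?_⟩
  obtain ⟨σ, h1, -, h2, h3⟩ := hT Γ hΓ g hg he
  exact ⟨σ, h1, h2, h3⟩

end Pool.Agent.Results.MP_07c750_an.CoversPowerRate
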